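import Pool.Agent.P.MP_5e7d86_al.All

set_option autoImplicit false
open Classical

namespace Pool.Agent.Results.MP_5e7d86_al.Linear

/-- Asymptotic dimension equals Assouad-Nagata dimension for finitely generated groups with at most
exponential Folner function that are virtually metabelian or virtually linear over a commutative
ring. -/
theorem result :
  ∀ (G : Type) [Group G] (S : Finset G), Subgroup.closure (S : Set G) = ⊤ →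
    (∃ H : Subgroup G, H.FiniteIndex ∧ (⁅⁅H, H⁆, ⁅H, H⁆⁆ = ⊥ ∨
      ∃ (n : ℕ) (R : Type) (_ : CommRing R) (psi : H →* GL (Fin n) R),
        Function.Injective psi)) →
    (∃ C : ℕ, ∀ n : ℕ, 1 ≤ n → ∃ F : Finset G, F.Nonempty ∧ F.card ≤ C ^ n ∧
        n * (F.filter (fun g => ∃ s ∈ S, g * s ∉ F)).card ≤ F.card) →
    ∀ d : ℕ,
      ((∀ r : ℕ, ∃ B : ℕ, ∃ U : Fin (d + 1) → Set (Set G),
          (∀ g : G, ∃ i, ∃ A ∈ U i, g ∈ A) ∧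
          (∀ i, ∀ A ∈ U i, ∀ g ∈ A, ∀ h ∈ A, ∃ l : List G, l.length ≤ B ∧
              (∀ x ∈ l, x ∈ S ∨ x⁻¹ ∈ S) ∧ g⁻¹ * h = l.prod) ∧
          (∀ i, ∀ A ∈ U i, ∀ A' ∈ U i, A ≠ A' → ∀ g ∈ A, ∀ h ∈ A',
              ¬ ∃ l : List G, l.length ≤ r ∧
                (∀ x ∈ l, x ∈ S ∨ x⁻¹ ∈ S) ∧ g⁻¹ * h = l.prod))
      ↔ (∃ c : ℕ, ∀ r : ℕ, ∃ U : Fin (d + 1) → Set (Set G),
          (∀ g : G, ∃ i, ∃ A ∈ U i, g ∈ A) ∧
          (∀ i, ∀ A ∈ U i, ∀ g ∈ A, ∀ h ∈ A, ∃ l : List G, l.length ≤ c * r ∧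
              (∀ x ∈ l, x ∈ S ∨ x⁻¹ ∈ S) ∧ g⁻¹ * h = l.prod) ∧
          (∀ i, ∀ A ∈ U i, ∀ A' ∈ U i, A ≠ A' → ∀ g ∈ A, ∀ h ∈ A',
              ¬ ∃ l : List G, l.length ≤ r ∧
                (∀ x ∈ l, x ∈ S ∨ x⁻¹ ∈ S) ∧ g⁻¹ * h = l.prod))) :=
  ANd.All.aMain

end Pool.Agent.Results.MP_5e7d86_al.Linear
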